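import Pool.Agent.W5h89.SSP.Defs
import Pool.Agent.W5h89.SSD.Law

/-!
# The zero-one law: conversion
-/

open CategoryTheory AlgebraicGeometry Filter Topology

universe u v w

namespace Pool.Agent.W5h89.SSP

open Module
open Pool.Agent.H914 Pool.Agent.H914.VarClass Pool.Agent.H914.VarClass.Obj
  Pool.Agent.H914.WeilCohomology
open Pool.Agent.W5h89
open Pool.Agent.Y133.Half (pw dimOf cycRank)
open Pool.Agent.Y121.AHS (RatioToZero)

variable {k : Type u} [Field k] {𝒱 : VarClass k} {ops : CycleOps 𝒱}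
  {W : WeilCohomology.{u, v} ops} {Γ : Type w} [Group Γ]

/-- The conversion of actions. -/
noncomputable def toG (A : GaloisAction W.toWeilData Γ) : SSD.GaloisAction W Γ where
  e g X := rep A X g
  c := A.c
  ne := A.ne
  one X := (A.act X).one
  mul g h X := (A.act X).mul g h
  ring g X := (A.act X).ring g
  gr := A.gr
  nat := A.nat
  cyc := A.cyc
  tr := A.tr

variable (A : GaloisAction W.toWeilData Γ)

lemma isTate_iff (X : 𝒱.Obj) (j : ℕ) (x : W.H X) : IsTate A X j x ↔ SSD.IsTate (toG A) X j x :=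
  Iff.rfl

lemma span_eq (X : 𝒱.Obj) : Submodule.span W.K (tateSet A X) = SSD.tateSpan (toG A) X := rfl

lemma tateDim_eq (X : 𝒱.Obj) : tateDim A X = SSD.tateDim (toG A) X := rfl

lemma tateRank_eq (X : 𝒱.Obj) : tateRank A X = SSD.tateRank (toG A) X := by
  have h : {x | InKernel A X x} = {x | x ∈ SSD.tateSpan (toG A) X ∧
      ∀ y ∈ SSD.tateSpan (toG A) X, W.tr X (x * y) = 0} := by
    ext x
    constructor
    · rintro ⟨h1, h2⟩
      refine ⟨h1, fun y hy => ?_⟩
      have hy' : y ∈ Submodule.span W.K (tateSet A X) := hy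
      clear hy
      induction hy' using Submodule.span_induction with
      | mem y hy => exact h2 y hy
      | zero => rw [mul_zero, map_zero]
      | add y z _ _ hy hz => rw [mul_add, map_add, hy, hz, add_zero]
      | smul r y _ hy => rw [mul_smul_comm, map_smul, hy, smul_zero]
    · rintro ⟨h1, h2⟩
      exact ⟨h1, fun y hy => h2 y (Submodule.subset_span hy)⟩
  rw [tateRank, h]
  rfl

lemma hasDualLine_iff (Y : 𝒱.Obj) (i : ℕ) {X : 𝒱.Obj} {V : Submodule W.K (W.H X)}
    (h : Stable (rep A X) V) : HasDualLine A Y i h ↔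
      SSD.HasDualLine (toG A) Y i (V := V) (show SSD.IsStable (toG A) V from h) := by
  constructor
  · rintro ⟨m, i', x, hx, hd, t, Δ, hΔ, ht, hχ⟩
    exact ⟨m, i', t, x, Δ, hΔ, hx, hd, ht, hχ⟩
  · rintro ⟨m, i', t, x, Δ, hΔ, hx, hd, ht, hχ⟩
    exact ⟨m, i', x, hx, hd, t, Δ, hΔ, ht, hχ⟩

lemma inj_of {X Y : 𝒱.Obj} {f : Y ⟶ X} (hf : InjPull W.toWeilData f) : Function.Injective (W.map f) := by
  intro x y hxy
  rw [← sub_eq_zero]
  apply hf
  rw [map_sub, hxy, sub_self]

theorem law (X Y : 𝒱.Obj) (N i : ℕ) (f : pw Y N ⟶ X) (hf : InjPull W.toWeilData f) :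
    ((∀ n, tateRank A (pw Y n) = tateDim A (pw Y n)) ∧ Splits A X Y i) ∨
      RatioToZero (fun n => tateRank A (pw Y n)) fun n => tateDim A (pw Y n) := by
  rcases SSD.law (toG A) X Y N i f (inj_of hf) with ⟨h1, h2⟩ | h
  · left
    refine ⟨fun n => ?_, fun V hVi hV hd => h2 V hVi hV ((hasDualLine_iff A Y i hV).1 hd)⟩
    rw [tateRank_eq]
    exact h1 n
  · right
    have h3 : (fun n => tateRank A (pw Y n)) = fun n => SSD.tateRank (toG A) (pw Y n) := by
      funext n
      exact tateRank_eq A _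
    rw [h3]
    exact h

theorem semisimple_of_density (X Y : 𝒱.Obj) (N i : ℕ) (f : pw Y N ⟶ X)
    (hf : InjPull W.toWeilData f) (hd : AllDual A X Y i)
    (hpos : ∃ ε : ℝ, 0 < ε ∧ ∀ n₀ : ℕ, ∃ n ≥ n₀,
      ε * (tateDim A (pw Y n) : ℝ) ≤ (cycRank ops (pw Y n) : ℝ)) : SemisimpleIn A X i :=
  SSD.semisimple_of_density (toG A) X Y N i f (inj_of hf)
    (fun V hVi hV => (hasDualLine_iff A Y i hV).1 (hd V hVi hV)) hpos

end Pool.Agent.W5h89.SSP
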