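import Mathlib

/-!
# Stable subspaces: definitions
-/

namespace Pool.Agent.W5h89.SSP

section

variable {K M M' Γ : Type*} [Field K] [AddCommGroup M] [Module K M] [AddCommGroup M'] [Module K M']

/-- The subspace `V` is stable under the operators `ρ g`. -/
def Stable (ρ : Γ → M →ₗ[K] M) (V : Submodule K M) : Prop := ∀ g, ∀ x ∈ V, ρ g x ∈ V

/-- The determinant of `ρ g` on the stable subspace `V`. -/
noncomputable def detOn (ρ : Γ → M →ₗ[K] M) {V : Submodule K M} (h : Stable ρ V) (g : Γ) : K :=
  LinearMap.det ((ρ g).restrict (h g))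

/-- The stable subspace `V` of `G` is a direct summand of `G`: it has a stable complement. -/
def Summand (ρ : Γ → M →ₗ[K] M) (G V : Submodule K M) : Prop :=
  ∃ V' : Submodule K M, Stable ρ V' ∧ V ⊓ V' = ⊥ ∧ V ⊔ V' = G

/-- All stable subspaces of `G` have the property `P`. -/
def ForStable (ρ : Γ → M →ₗ[K] M) (G : Submodule K M)
    (P : ∀ V : Submodule K M, Stable ρ V → Prop) : Prop :=
  ∀ V : Submodule K M, V ≤ G → ∀ h : Stable ρ V, P V h

/-- The subspace `G` is semisimple: every stable subspace of `G` has a stable complement. -/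
def Semisimple (ρ : Γ → M →ₗ[K] M) (G : Submodule K M) : Prop :=
  ForStable ρ G fun V _ => Summand ρ G V

/-- For the elements `g` of a subgroup of finite index, `ρ' g` multiplies the vector `x` with a
number `χ` such that `det (ρ g | V) * χ = c g ^ t`, where `2 t = d i + i'` and `d` is the dimension
of `V`. -/
def Dual [Group Γ] (ρ : Γ → M →ₗ[K] M) {V : Submodule K M} (h : Stable ρ V) (i : ℕ) (c : Γ → K)
    (ρ' : Γ → M' →ₗ[K] M') (i' : ℕ) (x : M') : Prop :=
  ∃ (t : ℕ) (Δ : Subgroup Γ), Δ.FiniteIndex ∧ Module.finrank K V * i + i' = 2 * t ∧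
    ∀ g ∈ Δ, ∃ χ : K, ρ' g x = χ • x ∧ detOn ρ h g * χ = c g ^ t

end

section

variable {K M Γ : Type*} [Field K] [Ring M] [Algebra K M]

/-- The maps `e g` are an action of the group `Γ` on the algebra `M` over the field `K` by linear
ring endomorphisms. -/
structure ActsOn (K : Type*) {M Γ : Type*} [Field K] [Ring M] [Algebra K M] [Group Γ]
    (e : Γ → M → M) : Prop where
  one : ∀ x, e 1 x = x
  mul : ∀ g h x, e (g * h) x = e g (e h x)
  add : ∀ g x y, e g (x + y) = e g x + e g y
  smul : ∀ g (r : K) x, e g (r • x) = r • e g x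
  ring : ∀ g x y, e g (x * y) = e g x * e g y

/-- The maps `e g` as linear maps. -/
def ActsOn.lin [Group Γ] {e : Γ → M → M} (h : ActsOn K e) (g : Γ) : M →ₗ[K] M where
  toFun := e g
  map_add' := h.add g
  map_smul' := h.smul g

/-- The element `x` is a linear combination of elements of `S`, and `tr (x * y) = 0` for every `y`
in `S`. -/
def InKer (tr : M →ₗ[K] K) (S : Set M) (x : M) : Prop :=
  x ∈ Submodule.span K S ∧ ∀ y ∈ S, tr (x * y) = 0

end

end Pool.Agent.W5h89.SSP
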