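import Pool.Agent.W5h89.SSP.Rep
import Pool.Agent.Y133.Half.HalfDefs

/-!
# Galois actions on a Weil cohomology theory: definitions

In the intended use `k` is a finitely generated field of characteristic zero, the varieties are the
smooth projective varieties over `k`, the Weil cohomology theory `W` is `ℓ`-adic cohomology of the
varieties over the algebraic closure, with coefficients `W.K = ℚ_ℓ`, and `Γ` is the Galois group of
`k`.
-/

open CategoryTheory AlgebraicGeometry

universe u v w

namespace Pool.Agent.W5h89.SSP

open Pool.Agent.H914
open Pool.Agent.Y133.Half (pw dimOf)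

variable {k : Type u} [Field k] {𝒱 : VarClass k} {ops : CycleOps 𝒱}

section

variable {D : WeilData.{u, v} 𝒱} {X : 𝒱.Obj}

/-- The class `x` has degree `i`. -/
def IsDeg (i : ℕ) (x : D.H X) : Prop := x ∈ D.gr X i

/-- The product of a number and a class. -/
def sm (r : D.K) (x : D.H X) : D.H X := r • x

end

/-- An action of the group `Γ` on the cohomology of all varieties of the class, with the formal
properties of the action of the Galois group on `ℓ`-adic cohomology: the elements act by linear
ring endomorphisms which preserve the degrees, commute with pull-backs and respect the classes of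
algebraic cycles (defined over the base field) and the orientations up to the powers of the
character `c` (the cyclotomic character; the Tate twists are suppressed). -/
structure GaloisAction (D : WeilData.{u, v} 𝒱) (Γ : Type w) [Group Γ] where
  /-- the action -/
  e : Γ → ∀ X : 𝒱.Obj, D.H X → D.H X
  /-- the action on the Tate twist -/
  c : Γ → D.K
  ne : ∀ g, c g ≠ 0
  act : ∀ X, ActsOn D.K fun g => e g X
  gr : ∀ g X i x, IsDeg i x → IsDeg i (e g X x)
  nat : ∀ (g : Γ) (X Y : 𝒱.Obj) (f : X ⟶ Y) (y : D.H Y), e g X (D.map f y) = D.map f (e g Y y)
  cyc : ∀ (g : Γ) (X : 𝒱.Obj) (j : ℕ) (z : X.Cycles), X.IsCyc j z →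
    e g X (D.cl X z) = sm (c g ^ j) (D.cl X z)
  tr : ∀ g X x, D.tr X (e g X x) = c g ^ X.dim * D.tr X x

section

variable {D : WeilData.{u, v} 𝒱} {Γ : Type w} [Group Γ] (A : GaloisAction D Γ)

/-- The action as a linear map. -/
noncomputable def rep (X : 𝒱.Obj) (g : Γ) : D.H X →ₗ[D.K] D.H X := (A.act X).lin g

/-- The Tate classes of degree `2 j`: the classes in `H^(2 j)(X)` on which the elements `g` of a
subgroup of finite index act as the multiplication by `c g ^ j` (that is, the classes in
`H^(2 j)(X)(j)` which are fixed by an open subgroup). -/
def IsTate (X : 𝒱.Obj) (j : ℕ) (x : D.H X) : Prop :=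
  IsDeg (2 * j) x ∧ ∃ Δ : Subgroup Γ, Δ.FiniteIndex ∧ ∀ g ∈ Δ, A.e g X x = sm (A.c g ^ j) x

/-- The Tate classes of all degrees. -/
def tateSet (X : 𝒱.Obj) : Set (D.H X) := {x | ∃ j, IsTate A X j x}

/-- The action of the group on `H^i(X)` is semisimple. -/
def SemisimpleIn (X : 𝒱.Obj) (i : ℕ) : Prop := Semisimple (rep A X) (D.gr X i)

/-- The pull-back by `f` is injective on cohomology. -/
def InjPull (D : WeilData.{u, v} 𝒱) {X Y : 𝒱.Obj} (f : Y ⟶ X) : Prop :=
  ∀ x : D.H X, D.map f x = 0 → x = 0

end

variable {W : WeilCohomology.{u, v} ops} {Γ : Type w} [Group Γ]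
  (A : GaloisAction W.toWeilData Γ)

/-- The dimension of the space spanned by the Tate classes. -/
noncomputable def tateDim (X : 𝒱.Obj) : ℕ := dimOf W (tateSet A X)

/-- The class `x` is a linear combination of Tate classes, and the intersection number of `x` with
every Tate class is zero. -/
def InKernel (X : 𝒱.Obj) (x : W.H X) : Prop := InKer (W.tr X) (tateSet A X) x

/-- The rank of the intersection form on the space of Tate classes: the dimension of this space
minus the dimension of the kernel of the form. -/
noncomputable def tateRank (X : 𝒱.Obj) : ℕ := tateDim A X - dimOf W {x | InKernel A X x}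

/-- The determinant of the stable subspace `V` of the cohomology of degree `i` of `X` is
potentially dual, up to a Tate twist, to a line in the cohomology of a power of `Y`: some power of
`Y` has a cohomology class `x`, not zero, of degree `i'`, such that `d i + i' = 2 t`, where `d` is
the dimension of `V`, and the elements `g` of a subgroup of finite index multiply `x` with numbers
`χ` such that `det (g | V) * χ = c g ^ t`. (If `x = 1` is the unit class, `i' = 0` and `χ = 1`, this
says that the determinant is potentially a power of the cyclotomic character.) -/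
def HasDualLine (Y : 𝒱.Obj) (i : ℕ) {X : 𝒱.Obj} {V : Submodule W.K (W.H X)}
    (h : Stable (rep A X) V) : Prop :=
  ∃ (m i' : ℕ) (x : W.H (pw Y m)), x ≠ 0 ∧ IsDeg i' x ∧ Dual (rep A X) h i A.c (rep A (pw Y m)) i' x

/-- Every stable subspace of `H^i(X)` whose determinant is potentially dual to a line in the
cohomology of a power of `Y` is a direct summand. -/
def Splits (X Y : 𝒱.Obj) (i : ℕ) : Prop :=
  ForStable (rep A X) (W.gr X i) fun V h => HasDualLine A Y i h → Summand (rep A X) (W.gr X i) V

/-- The determinants of all stable subspaces of `H^i(X)` are potentially dual to lines in the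
cohomology of powers of `Y`. -/
def AllDual (X Y : 𝒱.Obj) (i : ℕ) : Prop :=
  ForStable (rep A X) (W.gr X i) fun _ h => HasDualLine A Y i h

end Pool.Agent.W5h89.SSP
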